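import Pool.Agent.T9h39.PZ.Spec

set_option autoImplicit false

namespace Pool.Agent.T9h12.PZ

open Finset Pool.Agent.T9h39.PZ

open Classical in
lemma fib_card {k m : ℕ} {X : Type} [Fintype X] (τ : X → Fin k) (hτ : Bal m τ)
    (h : Fin k → Fin k) (q : Fin k) :
    (univ.filter fun x => h (τ x) = q).card = (univ.filter fun i => h i = q).card * m := by
  rw [card_eq_sum_card_fiberwise (f := τ) (t := univ.filter fun i => h i = q)]
  · rw [sum_const_nat (m := m)]
    intro i hi
    rw [mem_filter] at hi
    rw [filter_filter, ← hτ i]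
    congr 1
    ext x
    simp only [mem_filter, mem_univ, true_and]
    constructor
    · exact fun h => h.2
    · intro hx
      exact ⟨by rw [hx]; exact hi.2, hx⟩
  · intro x hx
    simp only [coe_filter, mem_univ, true_and, Set.mem_ofPred_eq] at hx ⊢
    exact hx

open Classical in
theorem struct : S_Struct := by
  intro k m L X _ hm hL σ g g' hσ h2
  rcases (univ.filter fun σ' : X → Fin k => Bal m σ' ∧ ∀ x, g (σ x) = g' (σ' x)).eq_empty_or_nonempty
    with he | ⟨σ₀, h0⟩
  · rw [he]; simp
  rw [mem_filter] at h0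
  obtain ⟨-, hb0, h0⟩ := h0
  set κ : Fin k → ℕ := fun q => (univ.filter fun i => g i = q).card with hκ
  have hκ' : ∀ q, (univ.filter fun i => g' i = q).card = κ q := by
    intro q
    have h1 := fib_card σ hσ g q
    have h3 := fib_card σ₀ hb0 g' q
    have h4 : (univ.filter fun x => g (σ x) = q) = (univ.filter fun x => g' (σ₀ x) = q) := by
      ext x
      simp only [mem_filter, mem_univ, true_and]
      rw [h0 x]
    rw [h4, h3] at h1
    exact Nat.eq_of_mul_eq_mul_right (by omega) h1
  have hsub : (univ.filter fun σ' : X → Fin k => Bal m σ' ∧ ∀ x, g (σ x) = g' (σ' x)) ⊆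
      Fintype.piFinset (fun x => univ.filter fun i => g' i = g (σ x)) := by
    intro τ hτ
    rw [mem_filter] at hτ
    rw [Fintype.mem_piFinset]
    intro x
    rw [mem_filter]
    exact ⟨mem_univ _, (hτ.2.2 x).symm⟩
  refine (card_le_card hsub).trans ?_
  rw [Fintype.card_piFinset]
  have e1 : ∏ x, (univ.filter fun i => g' i = g (σ x)).card = ∏ x, κ (g (σ x)) :=
    prod_congr rfl fun x _ => hκ' _
  rw [e1]
  have e2 : ∏ x, κ (g (σ x)) = ∏ q ∈ univ.image g, κ q ^ (κ q * m) := by
    rw [← prod_fiberwise_of_maps_to (s := univ) (t := univ.image g) (g := fun x => g (σ x))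
      (fun x _ => mem_image_of_mem g (mem_univ _))]
    refine prod_congr rfl fun q _ => ?_
    rw [← fib_card σ hσ g q, ← prod_const]
    refine prod_congr rfl fun x hx => ?_
    rw [mem_filter] at hx
    rw [hx.2]
  rw [e2]
  have hκ1 : ∀ q ∈ univ.image g, 1 ≤ κ q := by
    intro q hq
    rw [mem_image] at hq
    obtain ⟨i, -, hi⟩ := hq
    exact card_pos.mpr ⟨i, by rw [mem_filter]; exact ⟨mem_univ _, hi⟩⟩
  have hκ2 : ∀ q ∈ univ.image g, κ q ≤ k - 1 := by
    intro q hq
    obtain ⟨q', hq', hne⟩ := exists_mem_ne (s := univ.image g) (by omega) q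
    rw [mem_image] at hq'
    obtain ⟨i, -, hi⟩ := hq'
    have hs : (univ.filter fun i => g i = q) ⊆ univ.erase i := by
      intro j hj
      rw [mem_filter] at hj
      rw [mem_erase]
      refine ⟨?_, mem_univ _⟩
      rintro rfl
      exact hne (hi.symm.trans hj.2)
    have := card_le_card hs
    rw [card_erase_of_mem (mem_univ _), card_univ, Fintype.card_fin] at this
    exact this
  have e3 : ∏ q ∈ univ.image g, κ q ^ (κ q * m) ≤ ∏ q ∈ univ.image g, L ^ (κ q - 1) :=
    prod_le_prod' fun q hq => hL.2 (κ q) (hκ1 q hq) (hκ2 q hq)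
  refine e3.trans ?_
  rw [prod_pow_eq_pow_sum]
  have hsum : ∑ q ∈ univ.image g, κ q = k := by
    have := card_eq_sum_card_image g (univ : Finset (Fin k))
    rw [card_univ, Fintype.card_fin] at this
    exact this.symm
  have hsum2 : ∑ q ∈ univ.image g, (κ q - 1) + (univ.image g).card = k := by
    rw [card_eq_sum_ones, ← sum_add_distrib]
    refine (sum_congr rfl fun q hq => ?_).trans hsum
    have := hκ1 q hq
    omega
  have : ∑ q ∈ univ.image g, (κ q - 1) = k - (univ.image g).card := by omega
  rw [this]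

end Pool.Agent.T9h12.PZ
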