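import Pool.Agent.T9h39.PZ.Spec

set_option autoImplicit false

namespace Pool.Agent.T9h12.PZ

open Finset Pool.Agent.T9h39.PZ

lemma surj_of_bal {k m : ℕ} {X : Type} [Fintype X] (hm : 1 ≤ m) (τ : X → Fin k)
    (hτ : Bal m τ) : Function.Surjective τ := by
  classical
  intro i
  have h := hτ i
  have hpos : 0 < (univ.filter fun x => τ x = i).card := by rw [h]; omega
  obtain ⟨x, hx⟩ := card_pos.mp hpos
  rw [mem_filter] at hx
  exact ⟨x, hx.2⟩

lemma two_le_image {k : ℕ} (hk : 2 ≤ k) (g : Fin k → Fin k) (r : Fin k)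
    (hr : ∀ i, g i = g r → i = r) : 2 ≤ (univ.image g).card := by
  classical
  obtain ⟨i, hi⟩ : ∃ i : Fin k, i ≠ r := by
    have : Nontrivial (Fin k) := Fin.nontrivial_iff_two_le.mpr hk
    exact exists_ne r
  have : 1 < (univ.image g).card := by
    rw [one_lt_card]
    refine ⟨g i, mem_image_of_mem g (mem_univ _), g r, mem_image_of_mem g (mem_univ _), ?_⟩
    intro h
    exact hi (hr i h)
  omega

lemma eq_of_inj {k : ℕ} {X A : Type} [Fintype X] [AddCommGroup A] (σ σ' : X → Fin k)
    (hσ : Function.Surjective σ) (g g' : Fin k → Fin k) (h : ∀ x, g (σ x) = g' (σ' x))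
    (hg : Function.Injective g) (a : Fin k → A) (ha : Function.Injective a) (v : X → A)
    (h1 : Sums v σ a) (h2 : Sums v σ' a) : σ' = σ := by
  classical
  have hgs : Function.Surjective g := Finite.surjective_of_injective hg
  have hgs' : Function.Surjective g' := by
    intro y
    obtain ⟨i, hi⟩ := hgs y
    obtain ⟨x, hx⟩ := hσ i
    exact ⟨σ' x, by rw [← h x, hx, hi]⟩
  have hg' : Function.Injective g' := Finite.injective_iff_surjective.mpr hgs'
  funext x
  apply ha
  have e1 := h1 (σ x)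
  have e2 := h2 (σ' x)
  have e3 : (univ.filter fun y => σ y = σ x) = (univ.filter fun y => σ' y = σ' x) := by
    ext y
    simp only [mem_filter, mem_univ, true_and]
    constructor
    · intro hy
      apply hg'
      rw [← h y, ← h x, hy]
    · intro hy
      apply hg
      rw [h y, h x, hy]
  have e4 : ∑ y ∈ univ.filter (fun y => σ y = σ x), v y =
      ∑ y ∈ univ.filter (fun y => σ' y = σ' x), v y := by rw [e3]
  rw [e1, e2] at e4
  exact e4.symm

open Classical in
theorem conf : S_Rank → S_Struct → S_Conf := by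
  intro hR hS k m L A _ _ hk hm hL hA a ha σ hσ
  set N := Fintype.card A with hN
  have hN1 : 1 ≤ N := by
    have : 1 ≤ 2 * k ^ (2 * k) * L := by
      have h1 : 1 ≤ k ^ (2 * k) := Nat.one_le_pow _ _ (by omega)
      have h2 := hL.1
      nlinarith
    omega
  have hσs := surj_of_bal hm σ hσ
  set S := univ.filter (fun σ' : Fin (k * m) → Fin k => Bal m σ' ∧ σ' ≠ σ ∧ Share σ σ') with hSdef
  set T : (Fin (k * m) → Fin k) → ℕ := fun σ' =>
    (univ.filter fun v : Fin (k * m) → A => Sums v σ a ∧ Sums v σ' a).card with hT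
  -- choose the structures
  have hch : ∀ σ' : Fin (k * m) → Fin k, ∃ G : (Fin k → Fin k) × (Fin k → Fin k), Bal m σ' →
      (∀ x, G.1 (σ x) = G.2 (σ' x)) ∧
      (∀ r, (∀ x, σ x = r ↔ σ' x = r) → ∀ i, G.1 i = G.1 r → i = r) ∧
      T σ' * N ^ (2 * k) ≤ N ^ (k * m + (univ.image G.1).card) := by
    intro σ'
    by_cases hb : Bal m σ'
    · obtain ⟨g, g', h1, h2, h3⟩ := hR k (Fin (k * m)) A σ σ' hσs (surj_of_bal hm σ' hb)
      refine ⟨(g, g'), fun _ => ⟨h1, h2, ?_⟩⟩
      have := h3 a a
      rw [Fintype.card_fin] at this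
      refine le_trans (le_of_eq ?_) this
      congr 1
      simp only [hT]
      congr!
    · exact ⟨(id, id), fun h => absurd h hb⟩
  choose G hG using hch
  have key : ∀ p : (Fin k → Fin k) × (Fin k → Fin k),
      2 * (∑ σ' ∈ S.filter (fun σ' => G σ' = p), T σ') * N ^ (2 * k) * k ^ (2 * k) ≤
        N ^ (k * m + k) := by
    intro p
    rcases (S.filter (fun σ' => G σ' = p)).eq_empty_or_nonempty with he | ⟨σ₀, h0⟩
    · rw [he]; simp
    rw [mem_filter, hSdef, mem_filter] at h0
    obtain ⟨⟨-, hb0, hne0, r, hr⟩, hGp⟩ := h0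
    obtain ⟨h1, h2, h3⟩ := hG σ₀ hb0
    rw [hGp] at h1 h2 h3
    have hc2 : 2 ≤ (univ.image p.1).card := two_le_image hk p.1 r (h2 r hr)
    set c := (univ.image p.1).card with hc
    have hck : c ≤ k := by
      have := card_image_le (s := (univ : Finset (Fin k))) (f := p.1)
      rwa [card_univ, Fintype.card_fin] at this
    rcases Nat.lt_or_ge c k with hlt | hge
    · -- few components
      have hterm : ∀ σ' ∈ S.filter (fun σ' => G σ' = p), T σ' * N ^ (2 * k) ≤ N ^ (k * m + c) := by
        intro σ' h'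
        rw [mem_filter, hSdef, mem_filter] at h'
        have := (hG σ' h'.1.2.1).2.2
        rw [h'.2] at this
        exact this
      have hcard : (S.filter (fun σ' => G σ' = p)).card ≤ L ^ (k - c) := by
        have hs2 := hS k m L (Fin (k * m)) hm hL σ p.1 p.2 hσ hc2
        refine le_trans (le_trans (card_le_card (t := univ.filter fun σ' : Fin (k * m) → Fin k =>
          Bal m σ' ∧ ∀ x, p.1 (σ x) = p.2 (σ' x)) ?_) (le_of_eq ?_)) hs2
        · intro σ' h'
          rw [mem_filter, hSdef, mem_filter] at h'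
          rw [mem_filter]
          refine ⟨mem_univ _, h'.1.2.1, ?_⟩
          have := (hG σ' h'.1.2.1).1
          rw [h'.2] at this
          exact this
        · congr!
      have hsum : (∑ σ' ∈ S.filter (fun σ' => G σ' = p), T σ') * N ^ (2 * k) ≤
          L ^ (k - c) * N ^ (k * m + c) := by
        rw [sum_mul]
        refine (sum_le_sum hterm).trans ?_
        rw [sum_const, smul_eq_mul]
        exact Nat.mul_le_mul_right _ hcard
      have hpow : 2 * k ^ (2 * k) * L ^ (k - c) ≤ N ^ (k - c) := by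
        have h5 : 2 * k ^ (2 * k) ≤ (2 * k ^ (2 * k)) ^ (k - c) := by
          apply Nat.le_self_pow
          omega
        calc 2 * k ^ (2 * k) * L ^ (k - c) ≤ (2 * k ^ (2 * k)) ^ (k - c) * L ^ (k - c) :=
              Nat.mul_le_mul_right _ h5
          _ = (2 * k ^ (2 * k) * L) ^ (k - c) := (mul_pow _ _ _).symm
          _ ≤ N ^ (k - c) := Nat.pow_le_pow_left hA _
      calc 2 * (∑ σ' ∈ S.filter (fun σ' => G σ' = p), T σ') * N ^ (2 * k) * k ^ (2 * k)
          = ((∑ σ' ∈ S.filter (fun σ' => G σ' = p), T σ') * N ^ (2 * k)) * (2 * k ^ (2 * k)) := by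
            ring
        _ ≤ (L ^ (k - c) * N ^ (k * m + c)) * (2 * k ^ (2 * k)) := Nat.mul_le_mul_right _ hsum
        _ = (2 * k ^ (2 * k) * L ^ (k - c)) * N ^ (k * m + c) := by ring
        _ ≤ N ^ (k - c) * N ^ (k * m + c) := Nat.mul_le_mul_right _ hpow
        _ = N ^ (k * m + k) := by
            rw [← pow_add]
            congr 1
            omega
    · -- all classes are trivial: no common v
      have hinj : Function.Injective p.1 := by
        rw [← Set.injOn_univ, ← coe_univ]
        apply card_image_iff.mp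
        rw [card_univ, Fintype.card_fin]
        omega
      have hz : ∑ σ' ∈ S.filter (fun σ' => G σ' = p), T σ' = 0 := by
        apply sum_eq_zero
        intro σ' h'
        rw [mem_filter, hSdef, mem_filter] at h'
        obtain ⟨⟨-, hb', hne', -⟩, hGp'⟩ := h'
        have h1' := (hG σ' hb').1
        rw [hGp'] at h1'
        rw [hT]
        simp only
        rw [card_eq_zero, filter_eq_empty_iff]
        rintro v - ⟨hv1, hv2⟩
        exact hne' (eq_of_inj σ σ' hσs p.1 p.2 h1' hinj a ha v hv1 hv2)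
      rw [hz]
      simp
  -- sum over the structures
  have hfib : ∑ σ' ∈ S, T σ' = ∑ p : (Fin k → Fin k) × (Fin k → Fin k),
      ∑ σ' ∈ S.filter (fun σ' => G σ' = p), T σ' := (sum_fiberwise S G T).symm
  have hcardP : Fintype.card ((Fin k → Fin k) × (Fin k → Fin k)) = k ^ (2 * k) := by
    rw [Fintype.card_prod, Fintype.card_fun, Fintype.card_fin, two_mul, pow_add]
  have htot : 2 * (∑ σ' ∈ S, T σ') * N ^ (2 * k) * k ^ (2 * k) ≤
      k ^ (2 * k) * N ^ (k * m + k) := by
    rw [hfib, mul_sum, sum_mul, sum_mul]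
    refine (sum_le_sum fun p _ => key p).trans ?_
    rw [sum_const, card_univ, hcardP, smul_eq_mul]
  have hkk : 0 < k ^ (2 * k) := pow_pos (by omega) _
  have h6 : 2 * (∑ σ' ∈ S, T σ') * N ^ (2 * k) ≤ N ^ (k * m + k) := by
    rw [mul_comm (k ^ (2 * k))] at htot
    exact Nat.le_of_mul_le_mul_right htot hkk
  have hNk : 0 < N ^ k := pow_pos (by omega) _
  have h7 : 2 * (∑ σ' ∈ S, T σ') * N ^ k * N ^ k ≤ N ^ (k * m) * N ^ k := by
    calc 2 * (∑ σ' ∈ S, T σ') * N ^ k * N ^ k = 2 * (∑ σ' ∈ S, T σ') * N ^ (2 * k) := by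
          rw [two_mul k, pow_add]; ring
      _ ≤ N ^ (k * m + k) := h6
      _ = N ^ (k * m) * N ^ k := pow_add _ _ _
  exact Nat.le_of_mul_le_mul_right h7 hNk

end Pool.Agent.T9h12.PZ
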